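import Mathlib
import Pool.Agent.H66.FD11

open Filter Topology Metric Polynomial
open Pool.Agent.H66.FD (D Gr IsGcdSeq zt)

namespace Pool.Agent.Results.MP_dde008_nt.NaturalBoundary

/-- `f_n`, the number of points fixed by the `n`-th iterate of `T`. -/
noncomputable def fixN {X : Type*} (T : X → X) (n : ℕ) : ℕ := Nat.card {x : X // T^[n] x = x}

/-- `a` is a gcd sequence (indexed by `n ≥ 1`) with period `N ≥ 1`. -/
def GcdSeq (a : ℕ → ℝ) (N : ℕ) : Prop := 1 ≤ N ∧ ∀ n, 1 ≤ n → a n = a (Nat.gcd n N)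

/-- `|n|_p`, the normalised `p`-adic absolute value of `n`. -/
noncomputable def absP (p n : ℕ) : ℝ := ((padicNorm p (n : ℚ) : ℚ) : ℝ)

/-- `(X, T)` is a FAD-system. -/
def IsFAD {X : Type*} (T : X → X) : Prop :=
  (∀ n, 1 ≤ n → {x : X | T^[n] x = x}.Finite) ∧
  ∃ (d : ℕ) (A : Matrix (Fin d) (Fin d) ℤ) (S : Finset ℕ) (c : ℝ) (r : ℕ → ℝ) (s t : ℕ → ℕ → ℝ),
    (∀ p ∈ S, p.Prime) ∧ 0 < c ∧
    (∃ N, GcdSeq r N) ∧ (∀ n, 1 ≤ n → 0 < r n) ∧
    (∀ p ∈ S, ∃ N, N.Coprime p ∧ GcdSeq (s p) N) ∧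
    (∀ p ∈ S, ∃ N, N.Coprime p ∧ GcdSeq (t p) N) ∧
    (∀ p ∈ S, ∀ n, 1 ≤ n → 0 ≤ s p n ∧ 0 ≤ t p n) ∧
    ∀ n, 1 ≤ n → (fixN T n : ℝ) = |(((A ^ n - 1).det : ℤ) : ℝ)| * c ^ n * r n *
      ∏ p ∈ S, ((absP p n) ^ (s p n) * (p : ℝ) ^ (-(t p n * (absP p n)⁻¹)))

/-- `Λ`, the limit superior of the `n`-th roots of `f_n`, that is `exp (limsup (log f_n / n))`. -/
noncomputable def Lam {X : Type*} (T : X → X) : ℝ :=
  limsup (fun n : ℕ => (fixN T n : ℝ) ^ ((n : ℝ)⁻¹)) atTop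

/-- the zeta function `ζ_f(z) = exp (Σ_{n ≥ 1} f_n / n z ^ n)`. -/
noncomputable def zeta {X : Type*} (T : X → X) (z : ℂ) : ℂ :=
  Complex.exp (∑' n : ℕ, (fixN T (n + 1) : ℂ) / ((n + 1 : ℕ) : ℂ) * z ^ (n + 1))

/-- `ζ_f ^ k` is a rational function for some `k ≥ 1`. -/
def RootRational {X : Type*} (T : X → X) : Prop :=
  ∃ k : ℕ, 1 ≤ k ∧ ∃ P Q : ℂ[X], Q ≠ 0 ∧
    ∀ z : ℂ, ‖z‖ < 1 / Lam T → zeta T z ^ k * Q.eval z = P.eval z

/-- the circle `|z| = 1 / Λ` is a natural boundary of `ζ_f`: for no open set `U` meeting this circle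
is there an analytic function on `U` equal to `ζ_f` at the points of `U` with `|z| < 1 / Λ`. -/
def HasNaturalBoundary {X : Type*} (T : X → X) : Prop :=
  ∀ U : Set ℂ, IsOpen U → (∃ w ∈ U, ‖w‖ = 1 / Lam T) →
    ¬ ∃ g : ℂ → ℂ, AnalyticOnNhd ℂ g U ∧ ∀ z ∈ U, ‖z‖ < 1 / Lam T → g z = zeta T z

lemma zeta_eq {X : Type*} (T : X → X) (z : ℂ) : zeta T z = zt (fixN T) z := by
  unfold zeta zt
  congr 1
  have hinj : Function.Injective (fun n : ℕ => n + 1) := fun a b h => by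
    simpa using h
  have h := hinj.tsum_eq (f := fun n : ℕ => (fixN T n : ℂ) / n * z ^ n) (by
    intro n hn
    rcases Nat.eq_zero_or_pos n with h0 | h0
    · exfalso; apply hn; subst h0; simp
    · exact ⟨n - 1, by simp only; omega⟩)
  exact h

lemma absP_eq {p : ℕ} (hp : p.Prime) {n : ℕ} (hn : 1 ≤ n) : absP p n = H66.FD.absP p n := by
  have := Fact.mk hp
  unfold absP H66.FD.absP
  have hn0 : (n : ℚ) ≠ 0 := by
    have : n ≠ 0 := by omega
    exact_mod_cast this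
  rw [padicNorm.eq_zpow_of_nonzero hn0, padicValRat.of_nat, Rat.cast_zpow, Rat.cast_natCast,
    zpow_neg, zpow_natCast]

lemma GcdSeq.to {a : ℕ → ℝ} {N : ℕ} (h : GcdSeq a N) : IsGcdSeq a N := h

lemma gcd_mono {a : ℕ → ℝ} {N M : ℕ} (h : IsGcdSeq a N) (hM : 0 < M) : IsGcdSeq a (N * M) := by
  refine ⟨Nat.mul_pos h.1 hM, fun n hn => ?_⟩
  have hg : 1 ≤ Nat.gcd n (N * M) := Nat.gcd_pos_of_pos_left _ hn
  have h1 : Nat.gcd (Nat.gcd n (N * M)) N = Nat.gcd n N := by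
    rw [Nat.gcd_assoc, Nat.gcd_eq_right (Dvd.intro _ rfl : N ∣ N * M)]
  rw [h.2 n hn, h.2 _ hg, h1]

lemma exists_D {X : Type*} {T : X → X} (hT : IsFAD T) : Nonempty (D (fixN T)) := by
  obtain ⟨hfin, d, A, S, c, r, s, t, hp, hc, ⟨N, hr⟩, hr0, hs, ht, hst, hf⟩ := hT
  choose! Ns hNs using hs
  choose! Nt hNt using ht
  refine ⟨{ d := d, A := A, S := S, c := c, N := N, r := r, Np := fun p => Ns p * Nt p, s := s, t := t,
            hp := hp, hc := hc, hr := hr, hr0 := hr0, hs := ?_, ht := ?_, hNp := ?_,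
            hs0 := fun p hpS n hn => (hst p hpS n hn).1, ht0 := fun p hpS n hn => (hst p hpS n hn).2,
            hf := ?_ }⟩
  · intro p hpS
    exact gcd_mono (hNs p hpS).2.to (hNt p hpS).2.1
  · intro p hpS
    have := gcd_mono (hNt p hpS).2.to (hNs p hpS).2.1
    rwa [mul_comm] at this
  · intro p hpS hdvd
    have hpp := hp p hpS
    rcases (Nat.Prime.dvd_mul hpp).1 hdvd with h | h
    · exact (Nat.Prime.coprime_iff_not_dvd hpp).1 (hNs p hpS).1.symm h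
    · exact (Nat.Prime.coprime_iff_not_dvd hpp).1 (hNt p hpS).1.symm h
  · intro n hn
    rw [hf n hn]
    congr 1
    apply Finset.prod_congr rfl
    intro p hpS
    unfold H66.FD.phi
    rw [absP_eq (hp p hpS) hn]

lemma zt_diff {f : ℕ → ℕ} {l : ℝ} (hl : 0 < l) {C : ℝ} (hC : ∀ n, (f n : ℝ) ≤ C * l ^ n) :
    DifferentiableOn ℂ (zt f) (ball 0 (1 / l)) := by
  intro z hz
  obtain ⟨Ld, h1, _⟩ := H66.FD.L_deriv hl hC (mem_ball_zero_iff.1 hz)
  exact h1.cexp.differentiableAt.differentiableWithinAt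

lemma rr_global {f : ℕ → ℕ} {l : ℝ} (hl : 0 < l) {C : ℝ} (hC : ∀ n, (f n : ℝ) ≤ C * l ^ n)
    (h : H66.FD.RR (fun n => (f n : ℂ))) : ∃ k : ℕ, 1 ≤ k ∧ ∃ P Q : ℂ[X], Q ≠ 0 ∧
      ∀ z : ℂ, ‖z‖ < 1 / l → zt f z ^ k * Q.eval z = P.eval z := by
  obtain ⟨k, hk, P, Q, hP, hQ, R, hR, hz⟩ := h
  refine ⟨k, hk, P, Q, ?_, ?_⟩
  · rintro rfl; simp at hQ
  have hd : DifferentiableOn ℂ (fun z => zt f z ^ k * Q.eval z - P.eval z) (ball 0 (1 / l)) := by
    apply DifferentiableOn.sub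
    · apply DifferentiableOn.mul
      · exact (zt_diff hl hC).pow k
      · exact Q.differentiable.differentiableOn
    · exact P.differentiable.differentiableOn
  have ha := hd.analyticOnNhd isOpen_ball
  have h0 : (0 : ℂ) ∈ ball (0 : ℂ) (1 / l) := mem_ball_self (by positivity)
  have hev : (fun z => zt f z ^ k * Q.eval z - P.eval z) =ᶠ[𝓝 0] 0 := by
    filter_upwards [ball_mem_nhds (0 : ℂ) hR] with z hzR
    obtain ⟨L, hL1, hL2⟩ := hz z (mem_ball_zero_iff.1 hzR)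
    have : zt f z = Complex.exp L := by
      unfold zt
      rw [hL1.tsum_eq]
    rw [this, hL2]
    simp
  have hE := ha.eqOn_zero_of_preconnected_of_eventuallyEq_zero
    (convex_ball (0 : ℂ) (1 / l)).isPreconnected h0 hev
  intro z hz1
  have := hE (mem_ball_zero_iff.2 hz1)
  simp only [Pi.zero_apply] at this
  exact sub_eq_zero.1 this

/-- **Natural boundaries for FAD-systems.** If the zeta function of a FAD-system is not
root-rational, then it has the circle `|z| = 1 / Λ` as a natural boundary.  (Also `Λ > 0` and the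
series defining `ζ_f` converges for `|z| < 1 / Λ`.) -/
theorem result {X : Type*} (T : X → X) (hT : IsFAD T) (hnr : ¬ RootRational T) :
    0 < Lam T ∧
    (∀ z : ℂ, ‖z‖ < 1 / Lam T →
      Summable (fun n : ℕ => (fixN T (n + 1) : ℂ) / ((n + 1 : ℕ) : ℂ) * z ^ (n + 1))) ∧
    HasNaturalBoundary T := by
  obtain ⟨X1⟩ := exists_D hT
  obtain ⟨g1⟩ := H66.FD.exists_Gr X1
  have hne : ∃ n, 1 ≤ n ∧ fixN T n ≠ 0 := by
    by_contra hcon
    push Not at hcon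
    apply hnr
    refine ⟨1, le_rfl, 1, 1, one_ne_zero, fun z _ => ?_⟩
    unfold zeta
    have : ∀ n : ℕ, (fixN T (n + 1) : ℂ) / ((n + 1 : ℕ) : ℂ) * z ^ (n + 1) = 0 := by
      intro n
      rw [hcon (n + 1) (by omega)]
      simp
    simp only [this]
    simp
  have hl := g1.l_pos
  have hLam : Lam T = X1.c * g1.ρ0 := g1.Lam_eq hne
  obtain ⟨C, hC0, hC⟩ := g1.f_le
  refine ⟨by rw [hLam]; exact hl, ?_, ?_⟩
  · intro z hz
    rw [hLam] at hz
    have hlz : (X1.c * g1.ρ0) * ‖z‖ < 1 := by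
      rw [lt_div_iff₀ hl] at hz; linarith
    have hsum : Summable (fun n : ℕ => C * ((X1.c * g1.ρ0) * ‖z‖) ^ n) :=
      (summable_geometric_of_lt_one (by positivity) hlz).mul_left C
    have h1 : Summable (fun n : ℕ => (fixN T n : ℂ) / n * z ^ n) :=
      Summable.of_norm_bounded hsum (fun n => H66.FD.term_bound hl hC le_rfl n)
    exact (summable_nat_add_iff 1).2 h1
  · intro U hU hw hg
    obtain ⟨w, hwU, hw1⟩ := hw
    obtain ⟨g, hg1, hg2⟩ := hg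
    rw [hLam] at hw1
    obtain ⟨ε, hε, hεU⟩ := Metric.isOpen_iff.1 hU w hwU
    obtain ⟨w', δ, hw', hδ, harc⟩ := H66.FD.arc_of_cont hl hC hw1 hε
      (hg1.differentiableOn.mono hεU) (fun z hz hz1 => by
        rw [hg2 z (hεU hz) (by rw [hLam]; exact hz1), zeta_eq])
    obtain ⟨k, hk⟩ := g1.exists_k hw' hδ harc
    obtain ⟨r', N, hr1, hr2, hr3⟩ := H66.FD.exists_r' X1 k hk
    have hG : ∀ l, l.Prime → fixN T l ≡ fixN T 1 [MOD l] := by
      intro l hl'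
      have := H66.FD.gauss T hl' (hT.1 l hl'.one_lt.le)
      exact this
    have hRR := H66.FD.RR_main X1.A X1.hc hr1 hr2 hr3 hG hne
    obtain ⟨k', hk', P, Q, hQ, hPQ⟩ := rr_global hl hC hRR
    apply hnr
    refine ⟨k', hk', P, Q, hQ, fun z hz => ?_⟩
    rw [zeta_eq]
    exact hPQ z (by rw [hLam] at hz; exact hz)

end Pool.Agent.Results.MP_dde008_nt.NaturalBoundary
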